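import Pool.Agent.Lib.MP_2a99c0_nt.Proof

set_option autoImplicit false

/-!
# Erdős's bound for covering initial intervals is equivalent to its robust form

Erdős's bound `Y(x) ≪ x ^ (1 + o(1))` for primorials is equivalent to the bound
`j(n) ≪ ω(n) ^ (1 + o(1))` for Jacobsthal's function of all integers `n`, and to the statement
that at most `y ^ (1 - ε)` residue classes, the moduli up to `y ^ (1 - δ)` being pairwise coprime,
always miss at least `y ^ (1 - η)` elements of `{1, …, y}`.
-/

namespace Pool.Agent.Results.MP_2a99c0_nt.RobustEquivalence

open Pool.Agent.Lib.MP_2a99c0_nt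

theorem result : List.TFAE [
    -- Erdős's question: `Y(x) ≪ x ^ (1 + o(1))`
    ErdosBound,
    -- the corresponding bound for Jacobsthal's function of all integers
    JacobsthalBound,
    -- few classes with coprime moduli miss `y ^ (1 - o(1))` elements
    RobustBound] := main_tfae

end Pool.Agent.Results.MP_2a99c0_nt.RobustEquivalence
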