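import Pool.Agent.Lib.MP_2a99c0_nt.H73.Cor
import Pool.Agent.Lib.MP_2a99c0_nt.H73.Pw

set_option autoImplicit false

/-!
# No integer lies in almost all classes of a long covering

An inequality for all coverings of `{1, …, y}` by one residue class modulo each of `k` primes,
when `y` exceeds a constant multiple of `k log k`; a second inequality for the coverings of
`{1, …, y}`, `y ≥ l x`, by the primes up to `x`, in which the classes modulo the primes up to `z`
do not matter; and two consequences.  The problem asks whether there are such coverings with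
`l = x ^ ε`.  The last clause bounds every covering of the shape of Erdős and Rankin.
-/

namespace Pool.Agent.Results.MP_2a99c0_nt.SharedPoint

open Finset Pool.Agent.Lib.MP_2a99c0_nt.H73
open scoped Classical

theorem result : ∃ c C : ℝ, 0 < c ∧ 0 < C ∧
    -- every set `P` of at most `k` primes and every covering of `{1, …, y}`
    (∀ (k : ℕ) (P D : Finset ℕ) (r : ℕ → ℤ) (y : ℕ) (n : ℤ) (X : ℝ),
      2 ≤ k → (∀ p ∈ P, p.Prime) → P.card ≤ k → Covers P r y →
      0 ≤ n → n ≤ y + 1 → D ⊆ P →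
      C * (k * Real.log k) ≤ X → X * ∏ p ∈ D, (p : ℝ) ≤ y →
      c ≤ ∑ p ∈ (P \ D).filter (fun p : ℕ => ¬ (p : ℤ) ∣ n - r p ∧ 16 * (p : ℝ) ≤ X),
        Real.log X / (p * Real.log (X / p))) ∧
    -- the primes up to `x` and `y ≥ l x`: only the primes above `z` are counted
    (∀ (x z : ℕ) (l : ℝ) (r : ℕ → ℤ) (y : ℕ) (n : ℤ),
      C ≤ x → C ≤ l → l ≤ x → 3 ≤ z → z ^ 162 ≤ x → l * x ≤ y →
      Covers (Nat.primesLE x) r y → 0 ≤ n → n ≤ y + 1 →
      c ≤ ∑ p ∈ (Nat.primesLE x).filter (fun p : ℕ => z < p ∧ ¬ (p : ℤ) ∣ n - r p),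
        Real.log x / (p * Real.log (l * x / p)) *
          (1 + Real.log z / Real.log (l * x / p))) ∧
    -- no integer is in the classes of all primes from `l ^ c` to `x / l ^ c`
    (∀ (x : ℕ) (l : ℝ) (r : ℕ → ℤ) (y : ℕ) (n : ℤ),
      C ≤ x → C ≤ l → l ≤ x → l * x ≤ y → Covers (Nat.primesLE x) r y →
      0 ≤ n → n ≤ y + 1 →
      c * (Real.log l / Real.log x) ≤ ∑ p ∈ (Nat.primesLE x).filter
        (fun p : ℕ => l ^ c < p ∧ ¬ (p : ℤ) ∣ n - r p), 1 / (p : ℝ) ∧
      ∃ p : ℕ, p.Prime ∧ l ^ c < p ∧ (p : ℝ) ≤ x / l ^ c ∧ ¬ (p : ℤ) ∣ n - r p) ∧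
    -- coverings with an integer in the classes of all primes from `z` to `x / 2`
    (∀ (x z : ℕ) (r : ℕ → ℤ) (y : ℕ) (n : ℤ),
      C ≤ x → 3 ≤ z → z ^ 162 ≤ x → Covers (Nat.primesLE x) r y → 0 ≤ n → n ≤ y + 1 →
      (∀ p : ℕ, p.Prime → z < p → 2 * p ≤ x → (p : ℤ) ∣ n - r p) →
      (y : ℝ) ≤ x * Real.exp (C * Real.sqrt (Real.log z))) := by
  obtain ⟨c₁, C₁, hc₁, hC₁, h₁⟩ := shared
  obtain ⟨c₂, C₂, hc₂, hC₂, h₂⟩ := gen
  obtain ⟨c₃, C₃, hc₃, hC₃, h₃⟩ := uniform
  obtain ⟨C₄, hC₄, h₄⟩ := er_limit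
  obtain ⟨c, hc⟩ : ∃ c, c = min c₁ (min c₂ c₃) := ⟨_, rfl⟩
  have hc0 : 0 < c := by rw [hc]; positivity
  have e1 : c ≤ c₁ := by rw [hc]; exact min_le_left _ _
  have e2 : c ≤ c₂ := by rw [hc]; exact (min_le_right _ _).trans (min_le_left _ _)
  have e3 : c ≤ c₃ := by rw [hc]; exact (min_le_right _ _).trans (min_le_right _ _)
  refine ⟨c, C₁ + C₂ + C₃ + C₄ + 1, hc0, by positivity, ?_, ?_, ?_, ?_⟩
  · intro k P D r y n X hk hP hPk hcov hn0 hn1 hD hX hXy
    refine e1.trans (h₁ k P D r y n X hk hP hPk hcov hn0 hn1 hD ?_ hXy)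
    have hk1 : (1 : ℝ) ≤ k := by
      have : 1 ≤ k := by omega
      exact_mod_cast this
    have hkl : 0 ≤ k * Real.log k := mul_nonneg (by linarith) (Real.log_nonneg hk1)
    nlinarith
  · intro x z l r y n hx hl hlx hz3 hz162 hy hcov hn0 hn1
    exact e2.trans (h₂ x z l r y n (by linarith) (by linarith) hlx hz3 hz162 hy hcov hn0 hn1)
  · intro x l r y n hx hl hlx hy hcov hn0 hn1
    have hl1 : 1 ≤ l := by linarith
    have hx1 : (1 : ℝ) ≤ x := by linarith
    obtain ⟨h5, p, hp, h6, h7, h8⟩ :=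
      h₃ x l r y n (by linarith) (by linarith) hlx hy hcov hn0 hn1
    have e6 : l ^ c ≤ l ^ c₃ := Real.rpow_le_rpow_of_exponent_le hl1 e3
    refine ⟨?_, p, hp, lt_of_le_of_lt e6 h6, h7.trans ?_, h8⟩
    · refine le_trans ?_ (h5.trans ?_)
      · apply mul_le_mul_of_nonneg_right e3
        exact div_nonneg (Real.log_nonneg hl1) (Real.log_nonneg hx1)
      · apply Finset.sum_le_sum_of_subset_of_nonneg
        · intro q hq
          rw [mem_filter] at hq ⊢
          exact ⟨hq.1, lt_of_le_of_lt e6 hq.2.1, hq.2.2⟩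
        · intro q _ _
          positivity
    · exact div_le_div_of_nonneg_left (by linarith) (by positivity) e6
  · intro x z r y n hx hz3 hz162 hcov hn0 hn1 hsh
    refine (h₄ x z r y n (by linarith) hz3 hz162 hcov hn0 hn1 hsh).trans ?_
    have h5 : C₄ * Real.sqrt (Real.log z) ≤
        (C₁ + C₂ + C₃ + C₄ + 1) * Real.sqrt (Real.log z) :=
      mul_le_mul_of_nonneg_right (by linarith) (Real.sqrt_nonneg _)
    exact mul_le_mul_of_nonneg_left (Real.exp_le_exp.2 h5) (Nat.cast_nonneg _)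

end Pool.Agent.Results.MP_2a99c0_nt.SharedPoint
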